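import Pool.Agent.H441Z.EC.LS

set_option autoImplicit false
set_option maxHeartbeats 400000

namespace Pool.Agent.H441Z.EC

open Subgroup Monoid

/-- a system is solvable in `H` along `ι` -/
def Solv {G H : Type} [Group G] [Group H] (ι : G →* H) (n : ℕ)
    (E I : List (Monoid.Coprod G (FreeGroup (Fin n)))) : Prop :=
  ∃ φ : Monoid.Coprod G (FreeGroup (Fin n)) →* H,
    φ.comp Monoid.Coprod.inl = ι ∧ (∀ w ∈ E, φ w = 1) ∧ (∀ w ∈ I, φ w ≠ 1)

/-- existentially closed relative to a homomorphism to `Q` -/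
def RelEC {G Q : Type} [Group G] [Group Q] (φ : G →* Q) : Prop :=
  ∀ (H : Type) [Group H], LS H → ∀ ι : G →* H, Function.Injective ι →
    ∀ χ : H →* Q, χ.comp ι = φ → ∀ (n : ℕ) (E I : List (Monoid.Coprod G (FreeGroup (Fin n)))),
      Solv ι n E I → Solv (MonoidHom.id G) n E I

instance countable_freeGroup (X : Type) [Countable X] : Countable (FreeGroup X) :=
  Function.Surjective.countable (f := (FreeGroup.mk : List (X × Bool) → FreeGroup X))
    (fun w => by
      induction w using Quot.inductionOn with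
      | h l => exact ⟨l, rfl⟩)

instance countable_coprod (M N : Type) [Group M] [Group N] [Countable M] [Countable N] :
    Countable (Monoid.Coprod M N) := by
  have : Countable (FreeMonoid (M ⊕ N)) := inferInstanceAs (Countable (List (M ⊕ N)))
  exact Function.Surjective.countable (Monoid.Coprod.mk_surjective (M := M) (N := N))

section construction
variable (B : Type)

abbrev Fr := FreeGroup (B ⊕ ℕ)

def lvl : B ⊕ ℕ → ℕ := Sum.elim (fun _ => 0) (fun i => i + 1)

def Fk (k : ℕ) : Subgroup (Fr B) := closure (FreeGroup.of '' {x | lvl B x ≤ k})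

variable {B}

theorem Fk_mono {k l : ℕ} (h : k ≤ l) : Fk B k ≤ Fk B l := by
  apply Subgroup.closure_mono
  rintro _ ⟨x, hx, rfl⟩
  exact ⟨x, le_trans hx h, rfl⟩

theorem of_mem_Fk (x : B ⊕ ℕ) {k : ℕ} (h : lvl B x ≤ k) : FreeGroup.of x ∈ Fk B k :=
  subset_closure ⟨x, h, rfl⟩

theorem exists_Fk (w : Fr B) : ∃ k, w ∈ Fk B k := by
  induction w using FreeGroup.induction_on with
  | C1 => exact ⟨0, one_mem _⟩
  | of x => exact ⟨lvl B x, of_mem_Fk x le_rfl⟩
  | inv_of x h => exact ⟨lvl B x, inv_mem (of_mem_Fk x le_rfl)⟩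
  | mul x y hx hy =>
    obtain ⟨k, hk⟩ := hx
    obtain ⟨l, hl⟩ := hy
    exact ⟨max k l, mul_mem (Fk_mono (le_max_left _ _) hk) (Fk_mono (le_max_right _ _) hl)⟩

theorem eq_on_Fk {H : Type} [Group H] (f g : Fr B →* H) (k : ℕ)
    (h : ∀ x, lvl B x ≤ k → f (FreeGroup.of x) = g (FreeGroup.of x)) {w : Fr B}
    (hw : w ∈ Fk B k) : f w = g w := by
  refine MonoidHom.eqOn_closure ?_ hw
  rintro _ ⟨x, hx, rfl⟩
  exact h x hx

/-- words over the free group whose constants lie in level `k` -/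
def Ck (m k : ℕ) : Subgroup (Coprod (Fr B) (FreeGroup (Fin m))) :=
  closure ((Coprod.inl '' (Fk B k : Set (Fr B))) ∪ Set.range Coprod.inr)

theorem Ck_mono (m : ℕ) {k l : ℕ} (h : k ≤ l) : Ck (B := B) m k ≤ Ck m l := by
  apply Subgroup.closure_mono
  apply Set.union_subset_union_left
  exact Set.image_mono (Fk_mono h)

theorem exists_Ck (m : ℕ) (w : Coprod (Fr B) (FreeGroup (Fin m))) : ∃ k, w ∈ Ck m k := by
  induction w using Coprod.induction_on with
  | inl x =>
    obtain ⟨k, hk⟩ := exists_Fk x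
    exact ⟨k, subset_closure (Or.inl ⟨x, hk, rfl⟩)⟩
  | inr x => exact ⟨0, subset_closure (Or.inr ⟨x, rfl⟩)⟩
  | mul x y hx hy =>
    obtain ⟨k, hk⟩ := hx
    obtain ⟨l, hl⟩ := hy
    exact ⟨max k l, mul_mem (Ck_mono m (le_max_left _ _) hk) (Ck_mono m (le_max_right _ _) hl)⟩

theorem exists_Ck_list (m : ℕ) (L : List (Coprod (Fr B) (FreeGroup (Fin m)))) :
    ∃ k, ∀ w ∈ L, w ∈ Ck m k := by
  induction L with
  | nil => exact ⟨0, by simp⟩
  | cons a L ih =>
    obtain ⟨k, hk⟩ := ih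
    obtain ⟨l, hl⟩ := exists_Ck m a
    refine ⟨max k l, fun w hw => ?_⟩
    rcases List.mem_cons.mp hw with rfl | hw
    · exact Ck_mono m (le_max_right _ _) hl
    · exact Ck_mono m (le_max_left _ _) (hk w hw)

variable (B) in
/-- a finite stage of the construction -/
structure Cond (Q : Type) [Group Q] where
  k : ℕ
  K : Subgroup (Fr B)
  ψ : Fr B →* Q
  hK : ∀ w ∈ K, ψ w = 1
  good : ∃ (H : Type) (_ : Group H) (f : Fr B →* H), LS H ∧ f.ker = K

variable {Q : Type} [Group Q]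

def Cond.le (p q : Cond B Q) : Prop :=
  p.k ≤ q.k ∧ ∀ w ∈ Fk B p.k, (w ∈ p.K ↔ w ∈ q.K) ∧ p.ψ w = q.ψ w

theorem Cond.le_refl (p : Cond B Q) : p.le p := ⟨le_rfl, fun _ _ => ⟨Iff.rfl, rfl⟩⟩

theorem Cond.le_trans {p q r : Cond B Q} (h1 : p.le q) (h2 : q.le r) : p.le r :=
  ⟨h1.1.trans h2.1, fun w hw =>
    ⟨(h1.2 w hw).1.trans (h2.2 w (Fk_mono h1.1 hw)).1,
     (h1.2 w hw).2.trans (h2.2 w (Fk_mono h1.1 hw)).2⟩⟩

theorem Cond.normal (p : Cond B Q) : p.K.Normal := by
  obtain ⟨H, _, f, -, h⟩ := p.good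
  rw [← h]; infer_instance

variable (B) in
abbrev Sys := Σ m : ℕ, List (Coprod (Fr B) (FreeGroup (Fin m))) ×
  List (Coprod (Fr B) (FreeGroup (Fin m)))

def Solved (p : Cond B Q) (σ : Sys B) : Prop :=
  ∃ θ : Coprod (Fr B) (FreeGroup (Fin σ.1)) →* Fr B, θ.comp Coprod.inl = MonoidHom.id _ ∧
    (∀ w ∈ σ.2.1, θ w ∈ Fk B p.k ∧ θ w ∈ p.K) ∧ (∀ w ∈ σ.2.2, θ w ∈ Fk B p.k ∧ θ w ∉ p.K)

theorem exists_step (p : Cond B Q) (σ : Sys B) : ∃ q : Cond B Q, p.le q ∧ p.k < q.k ∧
    ((∃ r : Cond B Q, p.le r ∧ p.k < r.k ∧ Solved r σ) → Solved q σ) := by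
  by_cases h : ∃ r : Cond B Q, p.le r ∧ p.k < r.k ∧ Solved r σ
  · obtain ⟨r, h1, h2, h3⟩ := h
    exact ⟨r, h1, h2, fun _ => h3⟩
  · exact ⟨⟨p.k + 1, p.K, p.ψ, p.hK, p.good⟩, ⟨Nat.le_succ _, fun _ _ => ⟨Iff.rfl, rfl⟩⟩,
      Nat.lt_succ_self _, fun h' => absurd h' h⟩

theorem exists_seq [Countable B] (p0 : Cond B Q) : ∃ s : ℕ → Cond B Q, s 0 = p0 ∧
    (∀ n m, n ≤ m → (s n).le (s m)) ∧ (∀ n, n ≤ (s n).k) ∧
    ∀ σ : Sys B, ∀ N, ∃ n, N ≤ n ∧
      ((∃ r : Cond B Q, (s n).le r ∧ (s n).k < r.k ∧ Solved r σ) → Solved (s (n + 1)) σ) := by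
  choose st h1 h2 h3 using (exists_step (B := B) (Q := Q))
  have : Nonempty (Sys B) := ⟨⟨0, [], []⟩⟩
  obtain ⟨e, he⟩ := exists_surjective_nat (Sys B)
  let s : ℕ → Cond B Q := fun n => Nat.rec p0 (fun n p => st p (e (Nat.unpair n).1)) n
  have hs : ∀ n, s (n + 1) = st (s n) (e (Nat.unpair n).1) := fun n => rfl
  refine ⟨s, rfl, ?_, ?_, ?_⟩
  · intro n m hnm
    induction m, hnm using Nat.le_induction with
    | base => exact Cond.le_refl _
    | succ m _ ih => rw [hs]; exact Cond.le_trans ih (h1 _ _)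
  · intro n
    induction n with
    | zero => exact Nat.zero_le _
    | succ n ih => rw [hs]; exact Nat.succ_le_of_lt (lt_of_le_of_lt ih (h2 _ _))
  · intro σ N
    obtain ⟨a, rfl⟩ := he σ
    refine ⟨Nat.pair a N, Nat.right_le_pair _ _, ?_⟩
    rw [hs, Nat.unpair_pair]
    exact h3 _ _

section limit
variable (s : ℕ → Cond B Q) (hmono : ∀ n m, n ≤ m → (s n).le (s m)) (hk : ∀ n, n ≤ (s n).k)

include hmono in
def Kinf : Subgroup (Fr B) where
  carrier := {w | ∃ n, w ∈ Fk B (s n).k ∧ w ∈ (s n).K}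
  one_mem' := ⟨0, one_mem _, one_mem _⟩
  mul_mem' := by
    rintro a b ⟨n, ha, ha'⟩ ⟨m, hb, hb'⟩
    have h1 := hmono n (max n m) (le_max_left _ _)
    have h2 := hmono m (max n m) (le_max_right _ _)
    exact ⟨max n m, mul_mem (Fk_mono h1.1 ha) (Fk_mono h2.1 hb),
      mul_mem ((h1.2 a ha).1.mp ha') ((h2.2 b hb).1.mp hb')⟩
  inv_mem' := by
    rintro a ⟨n, ha, ha'⟩
    exact ⟨n, inv_mem ha, inv_mem ha'⟩

theorem mem_Kinf {n : ℕ} {w : Fr B} (hw : w ∈ Fk B (s n).k) :
    w ∈ Kinf s hmono ↔ w ∈ (s n).K := by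
  constructor
  · rintro ⟨m, hm, hm'⟩
    have h1 := hmono n (max n m) (le_max_left _ _)
    have h2 := hmono m (max n m) (le_max_right _ _)
    exact (h1.2 w hw).1.mpr ((h2.2 w hm).1.mp hm')
  · intro h
    exact ⟨n, hw, h⟩

include hk in
theorem exists_stage (w : Fr B) : ∃ n, w ∈ Fk B (s n).k := by
  obtain ⟨k, h⟩ := exists_Fk w
  exact ⟨k, Fk_mono (hk k) h⟩

include hk in
theorem Kinf_normal : (Kinf s hmono).Normal := by
  constructor
  rintro a ⟨n, ha, ha'⟩ g
  obtain ⟨m, hg⟩ := exists_stage s hk g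
  have h1 := hmono n (max n m) (le_max_left _ _)
  have h2 := hmono m (max n m) (le_max_right _ _)
  refine ⟨max n m, mul_mem (mul_mem (Fk_mono h2.1 hg) (Fk_mono h1.1 ha))
    (inv_mem (Fk_mono h2.1 hg)), ?_⟩
  exact (s (max n m)).normal.conj_mem a ((h1.2 a ha).1.mp ha') g

def psiInf : Fr B →* Q := FreeGroup.lift fun x => (s (lvl B x)).ψ (FreeGroup.of x)

include hmono hk in
theorem psiInf_eq {n : ℕ} {w : Fr B} (hw : w ∈ Fk B (s n).k) : psiInf s w = (s n).ψ w := by
  refine eq_on_Fk _ _ _ ?_ hw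
  intro x hx
  simp only [psiInf, FreeGroup.lift_apply_of]
  have h1 := hmono n (max n (lvl B x)) (le_max_left _ _)
  have h2 := hmono (lvl B x) (max n (lvl B x)) (le_max_right _ _)
  rw [(h1.2 _ (of_mem_Fk x hx)).2, (h2.2 _ (of_mem_Fk x (hk _))).2]

include hmono hk in
theorem exists_stage_set (S : Set (Fr B)) (hS : S.Finite) : ∃ n, ∀ w ∈ S, w ∈ Fk B (s n).k := by
  induction S, hS using Set.Finite.induction_on with
  | empty => exact ⟨0, by simp⟩
  | @insert a S _ _ ih =>
    obtain ⟨n, hn⟩ := ih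
    obtain ⟨m, hm⟩ := exists_stage s hk a
    refine ⟨max n m, fun w hw => ?_⟩
    rcases hw with rfl | hw
    · exact Fk_mono (hmono m _ (le_max_right _ _)).1 hm
    · exact Fk_mono (hmono n _ (le_max_left _ _)).1 (hn w hw)

include hk in
theorem LS_limit [(Kinf s hmono).Normal] : LS (Fr B ⧸ Kinf s hmono) := by
  intro S hS
  have hsurj := QuotientGroup.mk'_surjective (Kinf s hmono)
  have h : S = QuotientGroup.mk' (Kinf s hmono) '' (Function.surjInv hsurj '' S) := by
    rw [Set.image_image]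
    simp only [Function.surjInv_eq, Set.image_id']
  obtain ⟨n, hn⟩ := exists_stage_set s hmono hk _ (hS.image (Function.surjInv hsurj))
  obtain ⟨H, _, f, hH, hf⟩ := (s n).good
  rw [h, ← MonoidHom.map_closure]
  refine solv_transfer f _ ?_ ?_
  · intro w hw hfw
    have hw' : w ∈ Fk B (s n).k := (closure_le _).mpr hn hw
    rw [QuotientGroup.mk'_apply, QuotientGroup.eq_one_iff, mem_Kinf s hmono hw', ← hf]
    exact hfw
  · rw [MonoidHom.map_closure]
    exact hH _ ((hS.image _).image _)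

end limit

theorem exists_relEC [Countable B] (H0 : Type) [Group H0] (h0 : LS H0) (b : B → H0)
    (φ0 : H0 →* Q) : ∃ (G : Type) (_ : Group G) (π : FreeGroup B →* G) (φ : G →* Q),
      Countable G ∧ LS G ∧ RelEC φ ∧
      ∀ w, (π w = 1 ↔ FreeGroup.lift b w = 1) ∧ φ (π w) = φ0 (FreeGroup.lift b w) := by
  let f0 : Fr B →* H0 := FreeGroup.lift (Sum.elim b fun _ => 1)
  let p0 : Cond B Q := ⟨0, f0.ker, φ0.comp f0, fun w hw => by
    rw [MonoidHom.mem_ker] at hw
    simp [hw], ⟨H0, inferInstance, f0, h0, rfl⟩⟩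
  obtain ⟨s, hs0, hmono, hk, hσ⟩ := exists_seq p0
  have hN := Kinf_normal s hmono hk
  have hker : ∀ w ∈ Kinf s hmono, psiInf s w = 1 := by
    rintro w ⟨n, hw, hw'⟩
    rw [psiInf_eq s hmono hk hw]
    exact (s n).hK w hw'
  let mk := QuotientGroup.mk' (Kinf s hmono)
  have hmk : ∀ w, mk w = 1 ↔ w ∈ Kinf s hmono := fun w => QuotientGroup.eq_one_iff w
  let φ : Fr B ⧸ Kinf s hmono →* Q := QuotientGroup.lift _ (psiInf s) hker
  have hφ : ∀ w, φ (mk w) = psiInf s w := fun w => rfl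
  refine ⟨Fr B ⧸ Kinf s hmono, inferInstance, mk.comp (FreeGroup.map Sum.inl), φ,
    (QuotientGroup.mk'_surjective _).countable, LS_limit s hmono hk, ?_, ?_⟩
  · intro H _ hH ι hι χ hχ m E I ⟨θ, hθ, hE, hI⟩
    let μ : Coprod (Fr B) (FreeGroup (Fin m)) →*
      Coprod (Fr B ⧸ Kinf s hmono) (FreeGroup (Fin m)) := Coprod.map mk (MonoidHom.id _)
    have hμ : Function.Surjective μ := by
      intro w
      induction w using Coprod.induction_on with
      | inl x =>
        obtain ⟨y, rfl⟩ := QuotientGroup.mk'_surjective _ x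
        exact ⟨Coprod.inl y, rfl⟩
      | inr x => exact ⟨Coprod.inr x, rfl⟩
      | mul x y hx hy =>
        obtain ⟨a, rfl⟩ := hx
        obtain ⟨c, rfl⟩ := hy
        exact ⟨a * c, map_mul _ _ _⟩
    let sec := Function.surjInv hμ
    have hsec : ∀ w, μ (sec w) = w := Function.surjInv_eq hμ
    obtain ⟨k0, hk0⟩ := exists_Ck_list m (E.map sec ++ I.map sec)
    obtain ⟨n, hn, hstep⟩ := hσ ⟨m, E.map sec, I.map sec⟩ k0
    set k := (s n).k with hkdef
    have hk0k : k0 ≤ k := hn.trans (hk n)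
    let f : Fr B →* H := FreeGroup.lift fun x =>
      if lvl B x ≤ k then ι (mk (FreeGroup.of x)) else
        if h : lvl B x - (k + 1) < m then θ (Coprod.inr (FreeGroup.of ⟨_, h⟩)) else 1
    have hf : ∀ w ∈ Fk B k, f w = ι (mk w) := by
      intro w hw
      refine eq_on_Fk f (ι.comp mk) k ?_ hw
      intro x hx
      simp only [f, FreeGroup.lift_apply_of, if_pos hx, MonoidHom.comp_apply]
    let r : Cond B Q := ⟨k + m + 1, f.ker, χ.comp f, fun w hw => by
      rw [MonoidHom.mem_ker] at hw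
      simp [hw], ⟨H, inferInstance, f, hH, rfl⟩⟩
    let θ' : Coprod (Fr B) (FreeGroup (Fin m)) →* Fr B :=
      Coprod.lift (MonoidHom.id _) (FreeGroup.lift fun j => FreeGroup.of (Sum.inr (k + j)))
    have hθ' : ∀ w ∈ Ck m k, θ' w ∈ Fk B (k + m + 1) ∧ f (θ' w) = θ (μ w) := by
      intro w hw
      induction hw using closure_induction with
      | mem x hx =>
        rcases hx with ⟨y, hy, rfl⟩ | ⟨y, rfl⟩
        · refine ⟨Fk_mono (by omega) hy, ?_⟩
          have : θ (Coprod.inl (mk y)) = ι (mk y) := by rw [← hθ]; rfl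
          exact (hf y hy).trans this.symm
        · induction y using FreeGroup.induction_on with
          | C1 => simp
          | of j =>
            have e1 : θ' (Coprod.inr (FreeGroup.of j)) = FreeGroup.of (Sum.inr (k + j)) := by
              simp [θ']
            have e2 : lvl B (Sum.inr (k + j)) = k + j + 1 := rfl
            have hj := j.2
            rw [e1]
            refine ⟨of_mem_Fk _ (by rw [e2]; omega), ?_⟩
            have e3 : ¬ lvl B (Sum.inr (k + j)) ≤ k := by rw [e2]; omega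
            have e4 : lvl B (Sum.inr (k + j)) - (k + 1) < m := by rw [e2]; omega
            simp only [f, FreeGroup.lift_apply_of, if_neg e3, dif_pos e4]
            have e5 : (⟨lvl B (Sum.inr (k + j)) - (k + 1), e4⟩ : Fin m) = j := by
              apply Fin.ext
              simp only [e2]
              omega
            rw [e5]
            rfl
          | inv_of j ih =>
            simp only [map_inv]
            exact ⟨inv_mem ih.1, by rw [ih.2]⟩
          | mul a c ha hc =>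
            simp only [map_mul]
            exact ⟨mul_mem ha.1 hc.1, by rw [ha.2, hc.2]⟩
      | one => simp
      | mul a c _ _ ha hc =>
        simp only [map_mul]
        exact ⟨mul_mem ha.1 hc.1, by rw [ha.2, hc.2]⟩
      | inv a _ ha =>
        simp only [map_inv]
        exact ⟨inv_mem ha.1, by rw [ha.2]⟩
    have hsolved : Solved (s (n + 1)) ⟨m, E.map sec, I.map sec⟩ := by
      apply hstep
      refine ⟨r, ⟨by show k ≤ k + m + 1; omega, fun w hw => ⟨?_, ?_⟩⟩,
        by show k < k + m + 1; omega, θ', rfl, ?_, ?_⟩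
      · rw [← mem_Kinf s hmono hw, ← hmk]
        show _ ↔ f w = 1
        rw [hf w hw, map_eq_one_iff ι hι]
      · show _ = χ (f w)
        rw [hf w hw, ← psiInf_eq s hmono hk hw, ← hφ, ← hχ]
        rfl
      · intro w hw
        have h1 := hθ' w (Ck_mono m hk0k (hk0 w (List.mem_append_left _ hw)))
        refine ⟨h1.1, ?_⟩
        show f (θ' w) = 1
        obtain ⟨v, hv, rfl⟩ := List.mem_map.mp hw
        rw [h1.2, hsec]
        exact hE v hv
      · intro w hw
        have h1 := hθ' w (Ck_mono m hk0k (hk0 w (List.mem_append_right _ hw)))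
        refine ⟨h1.1, ?_⟩
        show ¬ f (θ' w) = 1
        obtain ⟨v, hv, rfl⟩ := List.mem_map.mp hw
        rw [h1.2, hsec]
        exact hI v hv
    obtain ⟨θ'', h1, h2, h3⟩ := hsolved
    let ψ : Coprod (Fr B ⧸ Kinf s hmono) (FreeGroup (Fin m)) →* Fr B ⧸ Kinf s hmono :=
      Coprod.lift (MonoidHom.id _) (mk.comp (θ''.comp Coprod.inr))
    have hψ : ψ.comp μ = mk.comp θ'' := by
      apply Coprod.hom_ext
      · rw [MonoidHom.comp_assoc _ _ mk]
        erw [h1]
        rfl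
      · rfl
    have hψ' : ∀ w, ψ w = mk (θ'' (sec w)) := by
      intro w
      conv_lhs => rw [← hsec w]
      exact DFunLike.congr_fun hψ (sec w)
    refine ⟨ψ, rfl, fun w hw => ?_, fun w hw => ?_⟩
    · have := h2 (sec w) (List.mem_map_of_mem hw)
      rw [hψ', hmk, mem_Kinf s hmono this.1]
      exact this.2
    · have := h3 (sec w) (List.mem_map_of_mem hw)
      rw [hψ', Ne, hmk, mem_Kinf s hmono this.1]
      exact this.2
  · intro w
    have h1 : FreeGroup.map Sum.inl w ∈ Fk B (s 0).k := by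
      induction w using FreeGroup.induction_on with
      | C1 => simp
      | of x => exact of_mem_Fk _ (Nat.zero_le _)
      | inv_of x h => rw [map_inv]; exact inv_mem h
      | mul x y hx hy => rw [map_mul]; exact mul_mem hx hy
    have h2 : f0 (FreeGroup.map Sum.inl w) = FreeGroup.lift b w := by
      have : f0.comp (FreeGroup.map Sum.inl) = FreeGroup.lift b := by
        ext x
        simp [f0]
      exact DFunLike.congr_fun this w
    refine ⟨?_, ?_⟩
    · rw [MonoidHom.comp_apply, hmk, mem_Kinf s hmono h1, hs0, ← h2]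
      rfl
    · rw [MonoidHom.comp_apply, hφ, psiInf_eq s hmono hk h1, hs0, ← h2]
      rfl

end construction

end Pool.Agent.H441Z.EC
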