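import Mathlib

set_option autoImplicit false
set_option maxHeartbeats 400000

namespace Pool.Agent.H441Z.EC

open Subgroup
open scoped commutatorElement

/-- locally soluble groups -/
def LS (K : Type) [Group K] : Prop :=
  ∀ S : Set K, S.Finite → Group.IsSolvable ↥(Subgroup.closure S)

section basic
variable {A B : Type} [Group A] [Group B]

theorem solv_mono {U V : Subgroup A} (h : U ≤ V) (hV : Group.IsSolvable V) :
    Group.IsSolvable U :=
  Group.isSolvable_of_isSolvable_injective (f := Subgroup.inclusion h)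
    (Subgroup.inclusion_injective h)

theorem solv_map (f : A →* B) {U : Subgroup A} (hU : Group.IsSolvable U) :
    Group.IsSolvable (U.map f) :=
  Group.isSolvable_of_surjective (f := f.subgroupMap U) (f.subgroupMap_surjective U)

theorem solv_of_map (f : A →* B) (hf : Function.Injective f) {U : Subgroup A}
    (hU : Group.IsSolvable (U.map f)) : Group.IsSolvable U :=
  Group.isSolvable_of_isSolvable_injective (f := f.subgroupMap U) (by
    intro x y hxy
    apply Subtype.ext
    apply hf
    exact congrArg Subtype.val hxy)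

theorem solv_transfer {C : Type} [Group C] (f : A →* B) (g : A →* C) {U : Subgroup A}
    (h : ∀ w ∈ U, f w = 1 → g w = 1) (hU : Group.IsSolvable (U.map f)) :
    Group.IsSolvable (U.map g) := by
  obtain ⟨n, hn⟩ := hU
  refine ⟨⟨n, le_bot_iff.mp ?_⟩⟩
  refine (derivedSeries_le_map_derivedSeries (g.subgroupMap_surjective U) n).trans ?_
  rintro _ ⟨x, hx, rfl⟩
  have h1 : f.subgroupMap U x ∈ derivedSeries (U.map f) n :=
    map_derivedSeries_le_derivedSeries (f.subgroupMap U) n ⟨x, hx, rfl⟩
  rw [hn, Subgroup.mem_bot] at h1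
  have h2 : f x = 1 := congrArg Subtype.val h1
  rw [Subgroup.mem_bot]
  exact Subtype.ext (h x x.2 h2)

theorem LS.of_injective (f : A →* B) (hf : Function.Injective f) (hB : LS B) : LS A := by
  intro S hS
  apply solv_of_map f hf
  rw [MonoidHom.map_closure]
  exact hB _ (hS.image f)

theorem LS.of_surjective (f : A →* B) (hf : Function.Surjective f) (hA : LS A) : LS B := by
  intro S hS
  have h : S = f '' (Function.surjInv hf '' S) := by
    rw [Set.image_image]
    simp [Function.surjInv_eq]
  rw [h, ← MonoidHom.map_closure]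
  exact solv_map f (hA _ (hS.image _))

theorem LS.of_solvable [Group.IsSolvable A] : LS A := fun _ _ => inferInstance

theorem LS.prod (hA : LS A) (hB : LS B) : LS (A × B) := by
  intro S hS
  have h1 := hA _ (hS.image Prod.fst)
  have h2 := hB _ (hS.image Prod.snd)
  have h3 : Group.IsSolvable
      ((closure (Prod.fst '' S)).prod (closure (Prod.snd '' S))) :=
    Group.isSolvable_of_isSolvable_injective
      (f := (Subgroup.prodEquiv (closure (Prod.fst '' S)) (closure (Prod.snd '' S))).toMonoidHom)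
      (Subgroup.prodEquiv (closure (Prod.fst '' S)) (closure (Prod.snd '' S))).injective
  refine solv_mono ?_ h3
  rw [closure_le]
  intro x hx
  exact ⟨subset_closure ⟨x, hx, rfl⟩, subset_closure ⟨x, hx, rfl⟩⟩

theorem solv_pi (P : Type) (hA : Group.IsSolvable A) : Group.IsSolvable (P → A) := by
  obtain ⟨n, hn⟩ := hA
  refine ⟨⟨n, le_bot_iff.mp ?_⟩⟩
  intro x hx
  rw [Subgroup.mem_bot]
  funext i
  have h1 : Pi.evalMonoidHom (fun _ : P => A) i x ∈ derivedSeries A n :=
    map_derivedSeries_le_derivedSeries (Pi.evalMonoidHom (fun _ : P => A) i) n ⟨x, hx, rfl⟩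
  rw [hn, Subgroup.mem_bot] at h1
  exact h1

end basic

section key
variable {H : Type} [Group H]

/-- normal closure of `g` computed inside the subgroup generated by `S` -/
def ncl (g : H) (S : Set H) : Subgroup H :=
  closure {x | ∃ s ∈ closure S, x = s * g * s⁻¹}

theorem ncl_mono (g : H) {S T : Set H} (h : S ⊆ T) : ncl g S ≤ ncl g T := by
  apply Subgroup.closure_mono
  rintro x ⟨s, hs, rfl⟩
  exact ⟨s, closure_mono h hs, rfl⟩

theorem ncl_conj (g : H) (S : Set H) {s : H} (hs : s ∈ closure S) {x : H} (hx : x ∈ ncl g S) :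
    s * x * s⁻¹ ∈ ncl g S := by
  induction hx using closure_induction with
  | mem x hx =>
    obtain ⟨t, ht, rfl⟩ := hx
    exact subset_closure ⟨s * t, mul_mem hs ht, by group⟩
  | one => simp
  | mul x y _ _ hx hy =>
    have : s * (x * y) * s⁻¹ = (s * x * s⁻¹) * (s * y * s⁻¹) := by group
    rw [this]; exact mul_mem hx hy
  | inv x _ hx =>
    have : s * x⁻¹ * s⁻¹ = (s * x * s⁻¹)⁻¹ := by group
    rw [this]; exact inv_mem hx

theorem exists_ncl (g : H) {x : H} (hx : x ∈ normalClosure ({g} : Set H)) :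
    ∃ S : Set H, S.Finite ∧ x ∈ ncl g S := by
  unfold normalClosure at hx
  induction hx using closure_induction with
  | mem x hx =>
    rw [Group.mem_conjugatesOfSet_iff] at hx
    obtain ⟨a, ha, hc⟩ := hx
    rw [Set.mem_singleton_iff] at ha
    subst ha
    obtain ⟨c, hc⟩ := isConj_iff.mp hc
    exact ⟨{c}, Set.finite_singleton c, subset_closure ⟨c, subset_closure rfl, hc.symm⟩⟩
  | one => exact ⟨∅, Set.finite_empty, one_mem _⟩
  | mul x y _ _ hx hy =>
    obtain ⟨S, hS, hx⟩ := hx
    obtain ⟨T, hT, hy⟩ := hy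
    exact ⟨S ∪ T, hS.union hT, mul_mem (ncl_mono g Set.subset_union_left hx)
      (ncl_mono g Set.subset_union_right hy)⟩
  | inv x _ hx =>
    obtain ⟨S, hS, hx⟩ := hx
    exact ⟨S, hS, inv_mem hx⟩

theorem exists_ncl_comm (g : H) {x : H}
    (hx : x ∈ ⁅normalClosure ({g} : Set H), normalClosure ({g} : Set H)⁆) :
    ∃ S : Set H, S.Finite ∧ x ∈ ⁅ncl g S, ncl g S⁆ := by
  rw [Subgroup.commutator_def] at hx
  induction hx using closure_induction with
  | mem x hx =>
    obtain ⟨a, ha, b, hb, rfl⟩ := hx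
    obtain ⟨S, hS, ha⟩ := exists_ncl g ha
    obtain ⟨T, hT, hb⟩ := exists_ncl g hb
    exact ⟨S ∪ T, hS.union hT, commutator_mem_commutator (ncl_mono g Set.subset_union_left ha)
      (ncl_mono g Set.subset_union_right hb)⟩
  | one => exact ⟨∅, Set.finite_empty, one_mem _⟩
  | mul x y _ _ hx hy =>
    obtain ⟨S, hS, hx⟩ := hx
    obtain ⟨T, hT, hy⟩ := hy
    refine ⟨S ∪ T, hS.union hT, mul_mem ?_ ?_⟩
    · exact commutator_mono (ncl_mono g Set.subset_union_left)
        (ncl_mono g Set.subset_union_left) hx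
    · exact commutator_mono (ncl_mono g Set.subset_union_right)
        (ncl_mono g Set.subset_union_right) hy
  | inv x _ hx =>
    obtain ⟨S, hS, hx⟩ := hx
    exact ⟨S, hS, inv_mem hx⟩

theorem comm_conj (g : H) (S : Set H) {s : H} (hs : s ∈ closure S) {x : H}
    (hx : x ∈ ⁅ncl g S, ncl g S⁆) : s * x * s⁻¹ ∈ ⁅ncl g S, ncl g S⁆ := by
  rw [Subgroup.commutator_def] at hx
  induction hx using closure_induction with
  | mem x hx =>
    obtain ⟨a, ha, b, hb, rfl⟩ := hx
    have : s * ⁅a, b⁆ * s⁻¹ = ⁅s * a * s⁻¹, s * b * s⁻¹⁆ := by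
      simp only [commutatorElement_def]; group
    rw [this]
    exact commutator_mem_commutator (ncl_conj g S hs ha) (ncl_conj g S hs hb)
  | one => simp
  | mul x y _ _ hx hy =>
    have : s * (x * y) * s⁻¹ = (s * x * s⁻¹) * (s * y * s⁻¹) := by group
    rw [this]; exact mul_mem hx hy
  | inv x _ hx =>
    have : s * x⁻¹ * s⁻¹ = (s * x * s⁻¹)⁻¹ := by group
    rw [this]; exact inv_mem hx

theorem LS.eq_one (hH : LS H) {g : H}
    (hg : g ∈ ⁅normalClosure ({g} : Set H), normalClosure ({g} : Set H)⁆) : g = 1 := by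
  obtain ⟨S, hS, hx⟩ := exists_ncl_comm g hg
  have hx' : g ∈ ⁅ncl g (insert g S), ncl g (insert g S)⁆ :=
    commutator_mono (ncl_mono g (Set.subset_insert _ _)) (ncl_mono g (Set.subset_insert _ _)) hx
  set T := insert g S with hT
  have hle : ncl g T ≤ ⁅ncl g T, ncl g T⁆ := by
    conv_lhs => unfold ncl
    rw [closure_le]
    rintro x ⟨s, hs, rfl⟩
    exact comm_conj g T hs hx'
  have hsub : ncl g T ≤ closure T := by
    unfold ncl
    rw [closure_le]
    rintro x ⟨s, hs, rfl⟩
    exact mul_mem (mul_mem hs (subset_closure (Set.mem_insert _ _))) (inv_mem hs)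
  have hsol : Group.IsSolvable (ncl g T) := solv_mono hsub (hH T (hS.insert g))
  by_contra hne
  have hgm : g ∈ ncl g T := subset_closure ⟨1, one_mem _, by simp⟩
  have : Nontrivial (ncl g T) := by
    rw [nontrivial_iff_ne_bot]
    intro h
    rw [h, Subgroup.mem_bot] at hgm
    exact hne hgm
  have hlt := Group.IsSolvable.commutator_lt_top_of_nontrivial (ncl g T)
  have : (commutator (ncl g T)).map (ncl g T).subtype < (⊤ : Subgroup (ncl g T)).map
      (ncl g T).subtype := map_subtype_lt_map_subtype.mpr hlt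
  rw [commutator_def, map_commutator, ← MonoidHom.range_eq_map, range_subtype] at this
  exact absurd hle (not_le_of_gt this)

end key

section wreath
variable {G P : Type} [Group G] [Group P]

/-- elements of the wreath product with entries in `U` and top part in `V` -/
def box (U : Subgroup G) (V : Subgroup P) : Subgroup (G ≀ᵣ P) where
  carrier := {w | (∀ x, w.left x ∈ U) ∧ w.right ∈ V}
  one_mem' := ⟨fun _ => one_mem _, one_mem _⟩
  mul_mem' := fun ha hb => ⟨fun x => mul_mem (ha.1 x) (hb.1 _), mul_mem ha.2 hb.2⟩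
  inv_mem' := fun ha => ⟨fun _ => inv_mem (ha.1 _), inv_mem ha.2⟩

theorem solv_box {U : Subgroup G} {V : Subgroup P} (hU : Group.IsSolvable U)
    (hV : Group.IsSolvable V) : Group.IsSolvable (box U V) := by
  have := solv_pi P hU
  let f : (P → U) →* box U V :=
    { toFun := fun a => ⟨⟨fun x => a x, 1⟩, fun x => (a x).2, one_mem _⟩
      map_one' := rfl
      map_mul' := fun a b => by
        apply Subtype.ext
        ext x
        · simp
        · simp }
  let g : box U V →* V :=
    { toFun := fun w => ⟨w.1.right, w.2.2⟩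
      map_one' := rfl
      map_mul' := fun _ _ => rfl }
  refine Group.isSolvable_of_ker_le_range f g ?_
  intro w hw
  have h1 : w.1.right = 1 := congrArg Subtype.val hw
  refine ⟨fun x => ⟨w.1.left x, w.2.1 x⟩, ?_⟩
  apply Subtype.ext
  ext x
  · rfl
  · exact h1.symm

variable (G P) in
/-- functions with values in a finitely generated subgroup, extended by the top group -/
def W : Subgroup (G ≀ᵣ P) where
  carrier := {w | ∃ S : Set G, S.Finite ∧ ∀ x, w.left x ∈ closure S}
  one_mem' := ⟨∅, Set.finite_empty, fun _ => one_mem _⟩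
  mul_mem' := by
    rintro a b ⟨S, hS, ha⟩ ⟨T, hT, hb⟩
    exact ⟨S ∪ T, hS.union hT, fun x => mul_mem (closure_mono Set.subset_union_left (ha x))
      (closure_mono Set.subset_union_right (hb _))⟩
  inv_mem' := by
    rintro a ⟨S, hS, ha⟩
    exact ⟨S, hS, fun x => inv_mem (ha _)⟩

theorem LS.W (hG : LS G) (hP : LS P) : LS (W G P) := by
  intro S hS
  have hch : ∀ s : EC.W G P, ∃ T : Set G, T.Finite ∧ ∀ x, s.1.left x ∈ closure T := fun s => s.2
  choose T hT hT' using hch
  have h1 : (⋃ s ∈ S, T s).Finite := hS.biUnion fun s _ => hT s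
  have h2 : ((fun s : EC.W G P => s.1.right) '' S).Finite := hS.image _
  apply solv_of_map (EC.W G P).subtype (EC.W G P).subtype_injective
  refine solv_mono ?_ (solv_box (hG _ h1) (hP _ h2))
  rw [MonoidHom.map_closure, closure_le]
  rintro _ ⟨s, hs, rfl⟩
  refine ⟨fun x => closure_mono ?_ (hT' s x), subset_closure ⟨s, hs, rfl⟩⟩
  exact Set.subset_biUnion_of_mem (u := T) hs

theorem mem_W_single (g : G) (f : P → G) (q : P) (h : ∀ x, f x ∈ closure ({g} : Set G)) :
    (⟨f, q⟩ : G ≀ᵣ P) ∈ W G P := ⟨{g}, Set.finite_singleton g, h⟩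

/-- the diagonal embedding `g ↦ (const (j g), φ g)` -/
def diag {A : Type} [Group A] (j : A →* G) (φ : A →* P) : A →* W G P where
  toFun := fun a => ⟨⟨fun _ => j a, φ a⟩, mem_W_single (j a) _ _ fun _ => subset_closure rfl⟩
  map_one' := by
    apply Subtype.ext
    ext x
    · simp
    · simp
  map_mul' := fun a b => by
    apply Subtype.ext
    ext x
    · simp
    · simp

theorem diag_injective {A : Type} [Group A] (j : A →* G) (φ : A →* P)
    (hj : Function.Injective j) : Function.Injective (diag j φ) := by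
  intro a b h
  apply hj
  exact congrFun (congrArg (fun w : W G P => w.1.left) h) 1

theorem LS.exists_comm_ext (hG : LS G) : ∃ (G1 : Type) (_ : Group G1) (j : G →* G1),
    LS G1 ∧ Function.Injective j ∧ ∀ g, ∃ a b : G1, j g = ⁅a, b⁆ := by
  refine ⟨EC.W G (Multiplicative ℤ), inferInstance, diag (MonoidHom.id G) 1,
    hG.W LS.of_solvable, diag_injective _ _ (fun _ _ h => h), fun g => ?_⟩
  have hg : g ∈ closure ({g} : Set G) := subset_closure rfl
  refine ⟨⟨⟨fun x => g ^ (Multiplicative.toAdd x : ℤ), 1⟩, mem_W_single g _ _ fun x =>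
    Subgroup.zpow_mem _ hg _⟩,
    ⟨⟨1, Multiplicative.ofAdd 1⟩, mem_W_single g _ _ fun x => one_mem _⟩, ?_⟩
  apply Subtype.ext
  simp only [commutatorElement_def]
  ext x
  · simp [diag, zpow_add]
  · simp [diag]

end wreath

end Pool.Agent.H441Z.EC
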