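import Pool.Agent.H441Z.EC.Exist

set_option autoImplicit false
set_option maxHeartbeats 400000

namespace Pool.Agent.H441Z.EC

open Subgroup Monoid
open scoped commutatorElement

/-- existentially closed among locally soluble groups -/
def IsEC (G : Type) [Group G] : Prop :=
  ∀ (H : Type) [Group H], LS H → ∀ ι : G →* H, Function.Injective ι →
    ∀ (n : ℕ) (E I : List (Monoid.Coprod G (FreeGroup (Fin n)))),
      Solv ι n E I → Solv (MonoidHom.id G) n E I

theorem exists_coloring {X : Type} (s : X → X) (hs : Function.Injective s) (h : ∀ x, s x ≠ x) :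
    ∃ c : X → Fin 3, ∀ x, c (s x) ≠ c x := by
  classical
  obtain ⟨A, hA⟩ := zorn_subset {A : Set X | ∀ x ∈ A, s x ∉ A} (by
    intro c hc hch
    refine ⟨⋃₀ c, ?_, fun t ht => Set.subset_sUnion_of_mem ht⟩
    rintro x ⟨t, ht, hx⟩ ⟨u, hu, hx'⟩
    rcases hch.total ht hu with h1 | h1
    · exact hc hu x (h1 hx) hx'
    · exact hc ht x hx (h1 hx'))
  have key : ∀ x, x ∉ A → s x ∉ A → s (s x) ∉ A → False := by
    intro x h1 h2 h3
    have : insert (s x) A ∈ {A : Set X | ∀ x ∈ A, s x ∉ A} := by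
      intro y hy hy'
      rcases hy with rfl | hy
      · rcases hy' with hy' | hy'
        · exact h _ hy'
        · exact h3 hy'
      · rcases hy' with hy' | hy'
        · exact h1 (hs hy' ▸ hy)
        · exact hA.prop y hy hy'
    exact h2 (hA.2 this (Set.subset_insert _ _) (Set.mem_insert _ _))
  refine ⟨fun x => if x ∈ A then 0 else if s x ∈ A then 1 else 2, fun x => ?_⟩
  by_cases h1 : x ∈ A
  · have h2 := hA.prop x h1
    simp only [if_pos h1, if_neg h2]
    split_ifs <;> decide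
  · by_cases h2 : s x ∈ A
    · simp only [if_neg h1, if_pos h2]
      decide
    · have h3 : s (s x) ∈ A := by
        by_contra h3
        exact key x h1 h2 h3
      simp only [if_neg h1, if_neg h2, if_pos h3]
      decide

section word
variable {K L : Type} [Group K] [Group L]

def piece (g a b c d : K) : K := ⁅⁅⁅g, a⁆, b⁆, ⁅⁅g, c⁆, d⁆⁆

def word (g : K) (h : Fin 12 → K) : K :=
  piece g (h 0) (h 1) (h 2) (h 3) * piece g (h 4) (h 5) (h 6) (h 7) *
    piece g (h 8) (h 9) (h 10) (h 11)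

theorem map_piece (f : K →* L) (g a b c d : K) :
    f (piece g a b c d) = piece (f g) (f a) (f b) (f c) (f d) := by
  simp only [piece, map_commutatorElement]

theorem map_word (f : K →* L) (g : K) (h : Fin 12 → K) :
    f (word g h) = word (f g) (fun i => f (h i)) := by
  simp only [word, map_mul, map_piece]

theorem comm_mem_left (N : Subgroup K) [hN : N.Normal] {g : K} (hg : g ∈ N) (a : K) :
    ⁅g, a⁆ ∈ N := by
  have : ⁅g, a⁆ = g * (a * g⁻¹ * a⁻¹) := by simp only [commutatorElement_def]; group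
  rw [this]
  exact mul_mem hg (hN.conj_mem _ (inv_mem hg) a)

theorem piece_mem (g a b c d : K) :
    piece g a b c d ∈ ⁅normalClosure ({g} : Set K), normalClosure ({g} : Set K)⁆ := by
  have hg : g ∈ normalClosure ({g} : Set K) := subset_normalClosure rfl
  exact commutator_mem_commutator (comm_mem_left _ (comm_mem_left _ hg a) b)
    (comm_mem_left _ (comm_mem_left _ hg c) d)

theorem word_mem (g : K) (h : Fin 12 → K) :
    word g h ∈ ⁅normalClosure ({g} : Set K), normalClosure ({g} : Set K)⁆ :=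
  mul_mem (mul_mem (piece_mem _ _ _ _ _) (piece_mem _ _ _ _ _)) (piece_mem _ _ _ _ _)

end word

section wr
variable {G P : Type} [Group G] [Group P]

/-- the function with value `a` on colour `i` -/
def ind (c : P → Fin 3) (i : Fin 3) (a : G) : W G P :=
  ⟨⟨fun x => if c x = i then a else 1, 1⟩, mem_W_single a _ _ fun x => by
    split_ifs
    · exact subset_closure rfl
    · exact one_mem _⟩

theorem ind_comm (c : P → Fin 3) (i : Fin 3) (a b : G) :
    ⁅ind c i a, ind c i b⁆ = ind c i ⁅a, b⁆ := by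
  apply Subtype.ext
  simp only [commutatorElement_def]
  ext x
  · by_cases h : c x = i <;> simp [ind, h]
  · simp [ind]

theorem ind_cc (c : P → Fin 3) (i : Fin 3) (γ : W G P) (hc : ∀ x, c (γ.1.right⁻¹ * x) ≠ c x)
    (a b : G) : ⁅⁅γ, ind c i a⁻¹⁆, ind c i b⁆ = ind c i ⁅a, b⁆ := by
  apply Subtype.ext
  simp only [commutatorElement_def]
  ext x
  · by_cases h : c x = i
    · have h' : ¬ c (γ.1.right⁻¹ * x) = i := fun h' => hc x (h'.trans h.symm)
      simp [ind, h, h']
    · by_cases h' : c (γ.1.right⁻¹ * x) = i <;> simp [ind, h, h']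
  · simp [ind]

theorem ind_prod (c : P → Fin 3) {A : Type} [Group A] (j : A →* G) (φ : A →* P) (n : A)
    (hn : φ n = 1) : diag j φ n = ind c 0 (j n) * ind c 1 (j n) * ind c 2 (j n) := by
  apply Subtype.ext
  ext x
  · have : c x = 0 ∨ c x = 1 ∨ c x = 2 := by
      generalize c x = y
      revert y
      decide
    rcases this with h | h | h <;> simp [ind, diag, h]
  · simp [ind, diag, hn]

end wr

theorem exists_word {G Q : Type} [Group G] [Group Q] (hG : LS G) (hQ : LS Q) (φ : G →* Q)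
    (hφ : RelEC φ) {g n : G} (hg : φ g ≠ 1) (hn : φ n = 1) : ∃ h : Fin 12 → G, n = word g h := by
  obtain ⟨G1, _, j1, hG1, hj1, hc1⟩ := hG.exists_comm_ext
  obtain ⟨G2, _, j2, hG2, hj2, hc2⟩ := hG1.exists_comm_ext
  obtain ⟨u, v, huv⟩ := hc1 n
  obtain ⟨a, b, hab⟩ := hc2 u
  obtain ⟨a', b', hab'⟩ := hc2 v
  obtain ⟨c, hc⟩ := exists_coloring (fun x : Q => (φ g)⁻¹ * x) (mul_right_injective _)
    (fun x h => hg (by simpa using h))
  let j := j2.comp j1
  let ι : G →* W G2 Q := diag j φ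
  have hι : Function.Injective ι := diag_injective j φ (hj2.comp hj1)
  let χ : W G2 Q →* Q := RegularWreathProduct.rightHom.comp (W G2 Q).subtype
  let h : Fin 12 → W G2 Q := ![ind c 0 a⁻¹, ind c 0 b, ind c 0 a'⁻¹, ind c 0 b',
    ind c 1 a⁻¹, ind c 1 b, ind c 1 a'⁻¹, ind c 1 b',
    ind c 2 a⁻¹, ind c 2 b, ind c 2 a'⁻¹, ind c 2 b']
  have hp : ∀ i, piece (ι g) (ind c i a⁻¹) (ind c i b) (ind c i a'⁻¹) (ind c i b') =
      ind c i (j n) := by
    intro i
    unfold piece
    rw [ind_cc c i (ι g) hc, ind_cc c i (ι g) hc, ind_comm, ← hab, ← hab',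
      ← map_commutatorElement, ← huv]
    rfl
  have hw : ι n = word (ι g) h := by
    rw [ind_prod c j φ n hn, ← hp, ← hp, ← hp]
    rfl
  let e : Coprod G (FreeGroup (Fin 12)) :=
    (Coprod.inl n)⁻¹ * word (Coprod.inl g) fun i => Coprod.inr (FreeGroup.of i)
  obtain ⟨ψ, h1, h2, -⟩ := hφ (W G2 Q) (hG2.W hQ) ι hι χ rfl 12 [e] []
    ⟨Coprod.lift ι (FreeGroup.lift h), rfl, by
      intro w hw'
      rw [List.mem_singleton] at hw'
      subst hw'
      simp only [e, map_mul, map_inv, map_word, Coprod.lift_apply_inl, Coprod.lift_apply_inr,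
        FreeGroup.lift_apply_of]
      rw [hw, inv_mul_cancel], by simp⟩
  have h3 := h2 e (List.mem_singleton.mpr rfl)
  have h4 : ∀ x, ψ (Coprod.inl x) = x := fun x => DFunLike.congr_fun h1 x
  simp only [e, map_mul, map_inv, map_word, h4] at h3
  exact ⟨_, inv_mul_eq_one.mp h3⟩

theorem isEC_of_relEC {G Q : Type} [Group G] [Group Q] (hG : LS G) (hQ : LS Q) (hQ' : IsEC Q)
    (φ : G →* Q) (hs : Function.Surjective φ) (hφ : RelEC φ) : IsEC G := by
  intro H _ hH ι hι m E I ⟨θ, hθ, hE, hI⟩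
  let K : Subgroup H := normalClosure (ι '' (φ.ker : Set G))
  have hK : ∀ g, ι g ∈ K → φ g = 1 := by
    intro g hg
    by_contra hne
    have hle : K ≤ ⁅normalClosure ({ι g} : Set H), normalClosure ({ι g} : Set H)⁆ := by
      apply normalClosure_le_normal
      rintro _ ⟨n, hn, rfl⟩
      obtain ⟨h, hh⟩ := exists_word hG hQ φ hφ hne hn
      rw [hh, map_word]
      exact word_mem _ _
    have h1 := hH.eq_one (hle hg)
    rw [map_eq_one_iff ι hι] at h1
    exact hne (by rw [h1, map_one])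
  let mk := QuotientGroup.mk' K
  let ι' : Q →* H ⧸ K := φ.liftOfSurjective hs ⟨mk.comp ι, fun n hn => by
    rw [MonoidHom.mem_ker, MonoidHom.comp_apply]
    exact (QuotientGroup.eq_one_iff _).mpr (subset_normalClosure ⟨n, hn, rfl⟩)⟩
  have hι' : ∀ g, ι' (φ g) = mk (ι g) := fun g =>
    MonoidHom.liftOfRightInverse_comp_apply φ _ _ _ g
  have hinj : Function.Injective ι' := by
    rw [injective_iff_map_eq_one]
    intro q hq
    obtain ⟨g, rfl⟩ := hs q
    rw [hι'] at hq
    exact hK g ((QuotientGroup.eq_one_iff _).mp hq)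
  let μ : Coprod G (FreeGroup (Fin m)) →* Coprod Q (FreeGroup (Fin m)) :=
    Coprod.map φ (MonoidHom.id _)
  let θ1 : Coprod Q (FreeGroup (Fin m)) →* H ⧸ K := Coprod.lift ι' (mk.comp (θ.comp Coprod.inr))
  have hθ1 : θ1.comp μ = mk.comp θ := by
    apply Coprod.hom_ext
    · rw [MonoidHom.comp_assoc _ _ mk, hθ]
      ext g
      exact hι' g
    · rfl
  obtain ⟨ψ, h1, h2, -⟩ := hQ' (H ⧸ K) (hH.of_surjective mk (QuotientGroup.mk'_surjective K))
    ι' hinj m (E.map μ) [] ⟨θ1, rfl, by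
      intro w hw
      obtain ⟨v, hv, rfl⟩ := List.mem_map.mp hw
      have := DFunLike.congr_fun hθ1 v
      simp only [MonoidHom.comp_apply] at this
      rw [this, hE v hv, map_one], by simp⟩
  refine hφ (H × Q) (hH.prod hQ) (ι.prod φ) (fun a b h => hι (congrArg Prod.fst h))
    (MonoidHom.snd H Q) rfl m E I ⟨θ.prod (ψ.comp μ), ?_, fun w hw => ?_, fun w hw h => ?_⟩
  · ext g
    · exact DFunLike.congr_fun hθ g
    · exact DFunLike.congr_fun h1 (φ g)
  · exact Prod.ext (hE w hw) (h2 _ (List.mem_map_of_mem hw))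
  · exact hI w hw (congrArg Prod.fst h)

theorem exists_EC : ∃ (Q : Type) (_ : Group Q), Countable Q ∧ LS Q ∧ IsEC Q ∧ Nontrivial Q := by
  obtain ⟨G, _, π, φ, hc, hG, hφ, hπ⟩ := exists_relEC (B := Unit) (Q := Unit) (Multiplicative ℤ)
    LS.of_solvable (fun _ => Multiplicative.ofAdd 1) 1
  refine ⟨G, inferInstance, hc, hG, fun H _ hH ι hι n E I h =>
    hφ H hH ι hι 1 (MonoidHom.ext fun _ => rfl) n E I h, π (FreeGroup.of ()), 1, fun h => ?_⟩
  have := (hπ _).1.mp h
  simp at this

section marked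
variable {K L : Type} [Group K] [Group L]

def cm (x y : K) (n : ℕ) : K := ⁅x, y ^ (n + 1) * x * (y ^ (n + 1))⁻¹⁆

theorem map_cm (f : K →* L) (x y : K) (n : ℕ) : f (cm x y n) = cm (f x) (f y) n := by
  simp only [cm, map_commutatorElement, map_mul, map_inv, map_pow]

theorem exists_marked (T : Set ℕ) : ∃ (D : Type) (_ : Group D) (x y r : D), LS D ∧ r ≠ 1 ∧
    (∀ n ∉ T, cm x y n = 1) ∧ ∀ n ∈ T, cm x y n = y ^ (n + 1) * r * (y ^ (n + 1))⁻¹ := by
  classical
  obtain ⟨D, _, j, hD, hj, hc⟩ := (LS.of_solvable (A := Multiplicative ℤ)).exists_comm_ext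
  obtain ⟨v, u, huv⟩ := hc (Multiplicative.ofAdd 1)
  have hne : ⁅v, u⁆ ≠ 1 := by
    rw [← huv, Ne, map_eq_one_iff j hj]
    simp
  let f : Multiplicative ℤ → D := fun i =>
    if i.toAdd = 0 then u else if ∃ n ∈ T, i.toAdd = (n : ℤ) + 1 then v else 1
  let x : W D (Multiplicative ℤ) := ⟨⟨f, 1⟩, {u, v}, Set.toFinite _, fun i => by
    show f i ∈ _
    simp only [f]
    split_ifs
    · exact subset_closure (by simp)
    · exact subset_closure (by simp)
    · exact one_mem _⟩
  let y : W D (Multiplicative ℤ) := ⟨RegularWreathProduct.inl (Multiplicative.ofAdd 1),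
    ∅, Set.finite_empty, fun _ => one_mem _⟩
  let r : W D (Multiplicative ℤ) := ⟨⟨fun i => if i.toAdd = 0 then ⁅v, u⁆ else 1, 1⟩,
    mem_W_single ⁅v, u⁆ _ _ fun i => by
      split_ifs
      · exact subset_closure rfl
      · exact one_mem _⟩
  have hy : ∀ n : ℕ, (y ^ (n + 1)).1 =
      RegularWreathProduct.inl (Multiplicative.ofAdd ((n : ℤ) + 1)) := by
    intro n
    rw [Subgroup.coe_pow, ← map_pow, ← ofAdd_nsmul]
    simp
  have hconj : ∀ (n : ℕ) (g : Multiplicative ℤ → D),
      RegularWreathProduct.inl (Multiplicative.ofAdd ((n : ℤ) + 1)) *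
        (⟨g, 1⟩ : D ≀ᵣ Multiplicative ℤ) *
        (RegularWreathProduct.inl (Multiplicative.ofAdd ((n : ℤ) + 1)))⁻¹ =
      ⟨fun i => g (Multiplicative.ofAdd (i.toAdd - ((n : ℤ) + 1))), 1⟩ := by
    intro n g
    ext i
    · simp only [RegularWreathProduct.mul_left, RegularWreathProduct.left_inl,
        RegularWreathProduct.right_inl, RegularWreathProduct.inv_left, Pi.mul_apply, Pi.one_apply,
        one_mul, Pi.inv_apply, inv_one, mul_one]
      congr 1
      apply Multiplicative.toAdd.injective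
      simp only [toAdd_mul, toAdd_inv, toAdd_ofAdd]
      ring
    · simp
  have hcomm : ∀ g g' : Multiplicative ℤ → D,
      ⁅(⟨g, 1⟩ : D ≀ᵣ Multiplicative ℤ), (⟨g', 1⟩ : D ≀ᵣ Multiplicative ℤ)⁆ =
        (⟨fun i => ⁅g i, g' i⁆, 1⟩ : D ≀ᵣ Multiplicative ℤ) := by
    intro g g'
    simp only [commutatorElement_def]
    ext i
    · simp
    · simp
  have hcm : ∀ n : ℕ, (cm x y n).1 =
      ⟨fun i => ⁅f i, f (Multiplicative.ofAdd (i.toAdd - ((n : ℤ) + 1)))⁆, 1⟩ := by
    intro n
    have := map_cm (W D (Multiplicative ℤ)).subtype x y n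
    simp only [Subgroup.coe_subtype] at this
    rw [this, cm, ← Subgroup.coe_pow, hy, hconj, hcomm]
  have hval : ∀ (n : ℕ) (i : Multiplicative ℤ),
      ⁅f i, f (Multiplicative.ofAdd (i.toAdd - ((n : ℤ) + 1)))⁆ =
        if n ∈ T ∧ i.toAdd - ((n : ℤ) + 1) = 0 then ⁅v, u⁆ else 1 := by
    intro n i
    simp only [f, toAdd_ofAdd]
    by_cases h0 : i.toAdd = 0
    · have h1 : ¬ i.toAdd - ((n : ℤ) + 1) = 0 := by omega
      have h2 : ¬ ∃ m ∈ T, i.toAdd - ((n : ℤ) + 1) = (m : ℤ) + 1 := by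
        rintro ⟨m, -, hm⟩
        omega
      simp only [if_neg h2, h1, and_false, if_false, commutatorElement_one_right]
    · by_cases h1 : i.toAdd - ((n : ℤ) + 1) = 0
      · by_cases h2 : n ∈ T
        · have h3 : ∃ m ∈ T, i.toAdd = (m : ℤ) + 1 := ⟨n, h2, by omega⟩
          simp only [if_neg h0, if_pos h3, h1, h2, and_self, if_true]
        · have h3 : ¬ ∃ m ∈ T, i.toAdd = (m : ℤ) + 1 := by
            rintro ⟨m, hm, hm'⟩
            have : m = n := by omega
            exact h2 (this ▸ hm)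
          simp only [if_neg h0, if_neg h3, h2, false_and, if_false, commutatorElement_one_left]
      · simp only [if_neg h0, h1, and_false, if_false]
        split_ifs <;> simp
  refine ⟨W D (Multiplicative ℤ), inferInstance, x, y, r, hD.W LS.of_solvable, fun h => ?_,
    fun n hn => ?_, fun n hn => ?_⟩
  · apply hne
    have := congrFun (congrArg (fun w : W D (Multiplicative ℤ) => w.1.left) h) 1
    simpa [r] using this
  · apply Subtype.ext
    rw [hcm]
    ext i
    · exact (hval n i).trans (by simp [hn])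
    · rfl
  · apply Subtype.ext
    rw [hcm, Subgroup.coe_mul, Subgroup.coe_mul, Subgroup.coe_inv, hy, hconj]
    ext i
    · exact (hval n i).trans (by simp [hn])
    · rfl

end marked

theorem main : ∃ (G : Type) (_ : Group G), Countable G ∧ LS G ∧ IsEC G ∧
    ∃ N : Subgroup G, N.Characteristic ∧ N ≠ ⊥ ∧ N ≠ ⊤ := by
  obtain ⟨Q, _, hQc, hQ, hQe, hQn⟩ := exists_EC
  have hT : ∃ T : Set ℕ, ∀ x y : Q, {n | cm x y n ≠ 1} ≠ T := by
    by_contra hcon
    push Not at hcon
    have hs : Function.Surjective fun p : Q × Q => {n | cm p.1 p.2 n ≠ 1} := by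
      intro T
      obtain ⟨x, y, h⟩ := hcon T
      exact ⟨(x, y), h⟩
    have : Countable (Set ℕ) := hs.countable
    obtain ⟨e, he⟩ := exists_surjective_nat (Set ℕ)
    exact Function.cantor_surjective e he
  obtain ⟨T, hT⟩ := hT
  obtain ⟨D, _, x, y, r, hD, hr, h1, h2⟩ := exists_marked T
  let b : Fin 3 ⊕ Q → D × Q := Sum.elim (fun i => (![x, y, r] i, 1)) fun q => (1, q)
  obtain ⟨G, _, π, φ, hc, hG, hφ, hπ⟩ := exists_relEC (B := Fin 3 ⊕ Q) (Q := Q) (D × Q)
    (hD.prod hQ) b (MonoidHom.snd D Q)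
  have hs : Function.Surjective φ := fun q => ⟨π (FreeGroup.of (Sum.inr q)), by
    rw [(hπ _).2]; simp [b]⟩
  let 𝓜 : Set (Subgroup G) := {M | M.Normal ∧ ∀ X Y : G, {n | cm X Y n ∉ M} ≠ T}
  refine ⟨G, inferInstance, hc, hG, isEC_of_relEC hG hQ hQe φ hs hφ, sInf 𝓜, ?_, ?_, ?_⟩
  · rw [characteristic_iff_le_comap]
    intro α g hg
    rw [mem_comap, Subgroup.mem_sInf]
    intro M hM
    have : M.comap α.toMonoidHom ∈ 𝓜 := by
      refine ⟨hM.1.comap _, fun X Y h => hM.2 (α X) (α Y) ?_⟩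
      rw [← h]
      ext n
      simp only [Set.mem_ofPred_eq, mem_comap, map_cm]
      rfl
    exact (Subgroup.mem_sInf.mp hg) _ this
  · let X := FreeGroup.of (Sum.inl 0 : Fin 3 ⊕ Q)
    let Y := FreeGroup.of (Sum.inl 1 : Fin 3 ⊕ Q)
    let R := FreeGroup.of (Sum.inl 2 : Fin 3 ⊕ Q)
    have eX : FreeGroup.lift b X = MonoidHom.inl D Q x := by simp [X, b]
    have eY : FreeGroup.lift b Y = MonoidHom.inl D Q y := by simp [Y, b]
    have eR : FreeGroup.lift b R = MonoidHom.inl D Q r := by simp [R, b]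
    have hR : π R ≠ 1 := by
      rw [Ne, (hπ _).1, eR]
      intro h
      exact hr (congrArg Prod.fst h)
    have g1 : ∀ n ∉ T, cm (π X) (π Y) n = 1 := by
      intro n hn
      rw [← map_cm, (hπ _).1, map_cm, eX, eY, ← map_cm, h1 n hn, map_one]
    have g2 : ∀ n ∈ T, cm (π X) (π Y) n = π Y ^ (n + 1) * π R * (π Y ^ (n + 1))⁻¹ := by
      intro n hn
      have : π ((cm X Y n)⁻¹ * (Y ^ (n + 1) * R * (Y ^ (n + 1))⁻¹)) = 1 := by
        rw [(hπ _).1]
        simp only [map_mul, map_inv, map_pow, map_cm, eX, eY, eR]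
        rw [← map_cm, h2 n hn]
        simp only [map_mul, map_inv, map_pow, inv_mul_cancel]
      simp only [map_mul, map_inv, map_pow, map_cm] at this
      exact inv_mul_eq_one.mp this
    intro hbot
    apply hR
    rw [← Subgroup.mem_bot, ← hbot, Subgroup.mem_sInf]
    intro M hM
    by_contra hRM
    apply hM.2 (π X) (π Y)
    ext n
    simp only [Set.mem_ofPred_eq]
    constructor
    · intro h
      by_contra hn
      exact h (by rw [g1 n hn]; exact one_mem _)
    · intro hn h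
      rw [g2 n hn] at h
      apply hRM
      have := hM.1.conj_mem _ h (π Y ^ (n + 1))⁻¹
      simpa [mul_assoc] using this
  · intro htop
    have hk : φ.ker ∈ 𝓜 := by
      refine ⟨inferInstance, fun X Y h => hT (φ X) (φ Y) ?_⟩
      rw [← h]
      ext n
      simp only [Set.mem_ofPred_eq, MonoidHom.mem_ker, map_cm]
    obtain ⟨q, hq⟩ := exists_ne (1 : Q)
    obtain ⟨g, rfl⟩ := hs q
    have : g ∈ sInf 𝓜 := by rw [htop]; trivial
    exact hq ((Subgroup.mem_sInf.mp this) _ hk)

end Pool.Agent.H441Z.EC
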